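import Pool.Agent.Helper68.QB.ExtLim
import Pool.Agent.Helper33.QB.ExtSucc

/-!
# Project QB, module N3: the extension lemma
-/

set_option autoImplicit false
set_option linter.unusedSectionVars false

namespace Pool.Agent.Helper33.QB

open Set

universe v

variable {Ω : Type} {I : Type v} {α : Ordinal.{0}}

section N

variable [LinearOrder I] [WellFoundedLT I]

theorem ext_all [Uncountable Ω] (hα : Ind α) (b : I → NmD Ω I) (i : I) : ExtSpec α b i := by
  induction i using WellFoundedLT.induction with
  | ind i ih =>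
    intro pn s hpn hle hs j hji r hr hB K hK
    by_cases hne : ∃ l ∈ s.S, j ≤ l ∧ l < i
    · by_cases hg : ∃ m ∈ s.S, j ≤ m ∧ m < i ∧ ∀ l ∈ s.S, l < i → l ≤ m
      · obtain ⟨m, hm, hjm, hmi, hmax⟩ := hg
        exact ext_succ hα (ih m hmi) hpn hle hs hjm hmi hm hmax hr hB hK
      · refine ext_lim hα (fun m hm => ih m hm) hpn hle hs hji hne ?_ hr hB hK
        intro l hl hjl hli
        by_contra hcon
        push Not at hcon
        refine hg ⟨l, hl, hjl, hli, fun l' hl' hl'i => ?_⟩
        by_contra h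
        exact absurd (hcon l' hl' (not_le.1 h)) (not_le.2 hl'i)
    · push Not at hne
      have hlt : ∀ l ∈ s.S, l < i → l < j := fun l hl hli => by
        by_contra h
        exact absurd (hne l hl (not_lt.1 h)) (not_le.2 hli)
      have hge : ∀ l ∈ s.S, j ≤ l → i ≤ l := fun l hl h => hne l hl h
      have hBG : ∀ l x y, BG pn s i r l x y → BG pn s j r l x y := by
        rintro l x y ⟨h1, h2, h3 | h3⟩
        · exact ⟨h1, h2, Or.inl ⟨hlt l h1 h3.1, h3.2⟩⟩
        · exact ⟨h1, h2, Or.inr ⟨le_trans hji h3.1, h3.2⟩⟩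
      have hrb : Basic α r := V.basic hr
      refine ⟨r, V.mono hji hr, ⟨hB.cp, fun l hl hli => hB.S l hl (hlt l hl hli),
        fun l hl hli => hB.h l hl (hlt l hl hli), fun l hl hli => hB.out l hl (hlt l hl hli),
        Free.mono hBG hB.fr, Proper.mono hBG hB.pr⟩, ?_, fun x _ y _ g h => Acts.mono hBG h⟩
      rw [res_eq_self hrb (V.letters hr)]
      exact Le.refl' hrb.gr

end N

end Pool.Agent.Helper33.QB
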