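import Pool.Agent.Helper33.QB.Defs
import Pool.Agent.Helper55.QB.Res
import Pool.Agent.Helper15.QB.VUnion

/-!
# Project QB, F3c: diagonal unions
-/

set_option autoImplicit false
set_option linter.unusedSectionVars false

namespace Pool.Agent.Helper33.QB

open Set

universe v

variable {Ω : Type} {I : Type v} {α : Ordinal.{0}}

section F3c

variable [LinearOrder I] [WellFoundedLT I] {b : I → NmD Ω I} {i : I} {qn : ℕ → Cnd Ω I}
  {il : ℕ → I}

section Steps

variable (hV : ∀ n, qn n ∈ V α b (il n)) (hle : ∀ n, Le (res (qn (n + 1)) (il n)) (qn n))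

include hle in
omit [WellFoundedLT I] in
theorem h68_Y {m n : ℕ} (h : m ≤ n) : (qn m).Y ⊆ (qn n).Y := by
  induction n, h using Nat.le_induction with
  | base => exact Subset.rfl
  | succ n _ ih => exact ih.trans (hle n).cp.sub

include hle in
omit [WellFoundedLT I] in
theorem h68_R {m n : ℕ} (h : m ≤ n) : (qn m).R ⊆ (qn n).R := by
  induction n, h using Nat.le_induction with
  | base => exact Subset.rfl
  | succ n _ ih => exact ih.trans fun K hK => ((hle n).cp.ring K |>.1 hK).1

include hle in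
omit [WellFoundedLT I] in
theorem h68_S {m n : ℕ} (h : m ≤ n) : (qn m).S ⊆ (qn n).S := by
  induction n, h using Nat.le_induction with
  | base => exact Subset.rfl
  | succ n _ ih => exact ih.trans fun l hl => ((hle n).S hl).1

include hle in
omit [WellFoundedLT I] in
theorem h68_rk {m n : ℕ} (h : m ≤ n) {x : Ω} (hx : x ∈ (qn m).Y) : (qn n).r x = (qn m).r x := by
  induction n, h using Nat.le_induction with
  | base => rfl
  | succ n hmn ih => exact ((hle n).cp.rk x (h68_Y hle hmn hx)).trans ih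

include hV hle in
theorem h68_hl {m n : ℕ} (h : m ≤ n) {l : I} (hl : l ∈ (qn m).S) {x : Ω} (hx : x ∈ (qn m).Y) :
    (qn n).h l x = (qn m).h l x := by
  induction n, h using Nat.le_induction with
  | base => rfl
  | succ n hmn ih =>
    have h1 := (hle n).h l (h68_S hle hmn hl) x (h68_Y hle hmn hx)
    have h2 : l < il n := V.letters (hV n) l (h68_S hle hmn hl)
    rw [h55_res_h_of_lt _ h2] at h1
    exact h1.trans ih

end Steps

/-- Diagonal unions: `q n` has letters below `i n`, and `q (n+1)`, restricted to the letters below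
`i n`, is below `q n`. -/
theorem V.diag {qn : ℕ → Cnd Ω I} {il : ℕ → I} (him : Monotone il) (hi : ∀ n, il n ≤ i)
    (hV : ∀ n, qn n ∈ V α b (il n)) (hle : ∀ n, Le (res (qn (n + 1)) (il n)) (qn n)) :
    ∃ q ∈ V α b i, q.Y = ⋃ n, (qn n).Y ∧ q.S = ⋃ n, (qn n).S ∧
      (∀ K, K ∈ q.R ↔ ∃ n, K ∈ (qn n).R) ∧ (∀ n, Le (res q (il n)) (qn n)) := by
  classical
  have hVm : ∀ m n, res (qn (m + n)) (il m) ∈ V α b (il m) := fun m n =>
    V.res_mem (hV (m + n)) (il m)
  have hlem : ∀ m n, Le (res (qn (m + (n + 1))) (il m)) (res (qn (m + n)) (il m)) := by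
    intro m n
    have h1 := (hle (m + n)).res (il m)
    rw [res_res (him (Nat.le_add_right m n))] at h1
    exact h1
  choose u hu hun using fun m => V.union (hVm m) (hlem m)
  -- the unions are the same condition, up to the restriction of the letters
  have hY : ∀ m, (u m).Y = ⋃ n, (qn n).Y := by
    intro m
    rw [(hun m).Y]
    refine Subset.antisymm (iUnion_subset fun n => subset_iUnion (fun n => (qn n).Y) (m + n))
      (iUnion_subset fun n => ?_)
    exact (h68_Y hle (Nat.le_add_left n m)).trans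
      (subset_iUnion (fun n => (res (qn (m + n)) (il m)).Y) n)
  have hR : ∀ m K, K ∈ (u m).R ↔ ∃ n, K ∈ (qn n).R := by
    intro m K
    constructor
    · intro hK
      obtain ⟨n, hn⟩ := (hun m).R K hK
      exact ⟨m + n, hn⟩
    · rintro ⟨n, hn⟩
      have h1 : K ∈ (res (qn (m + n)) (il m)).R := h68_R hle (Nat.le_add_left n m) hn
      exact (((hun m).le n).cp.ring K |>.1 h1).1
  have hS : ∀ m l, l ∈ (u m).S ↔ (∃ n, l ∈ (qn n).S) ∧ l < il m := by
    intro m l
    rw [(hun m).S, mem_iUnion]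
    constructor
    · rintro ⟨n, hn⟩
      exact ⟨⟨m + n, hn.1⟩, hn.2⟩
    · rintro ⟨⟨n, hn⟩, hl⟩
      exact ⟨n, h68_S hle (Nat.le_add_left n m) hn, hl⟩
  have hr : ∀ m x n, x ∈ (qn n).Y → (u m).r x = (qn n).r x := by
    intro m x n hx
    have h1 : x ∈ (res (qn (m + n)) (il m)).Y := h68_Y hle (Nat.le_add_left n m) hx
    exact (((hun m).le n).cp.rk x h1).trans (h68_rk hle (Nat.le_add_left n m) hx)
  have hh : ∀ m l n x, l ∈ (qn n).S → l < il m → x ∈ (qn n).Y → (u m).h l x = (qn n).h l x := by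
    intro m l n x hl hlm hx
    have h1 : x ∈ (res (qn (m + n)) (il m)).Y := h68_Y hle (Nat.le_add_left n m) hx
    have h2 : l ∈ (res (qn (m + n)) (il m)).S := ⟨h68_S hle (Nat.le_add_left n m) hl, hlm⟩
    rw [((hun m).le n).h l h2 x h1, h55_res_h_of_lt _ hlm]
    exact h68_hl hV hle (Nat.le_add_left n m) hl hx
  have hhm : ∀ m m' l, l < il m → l < il m' → (u m).h l = (u m').h l := by
    intro m m' l hm hm'
    by_cases hl : ∃ n, l ∈ (qn n).S
    · obtain ⟨n, hn⟩ := hl
      funext x
      by_cases hx : x ∈ (u m).Y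
      · rw [hY m, mem_iUnion] at hx
        obtain ⟨n', hn'⟩ := hx
        have h1 : l ∈ (qn (max n n')).S := h68_S hle (le_max_left _ _) hn
        have h2 : x ∈ (qn (max n n')).Y := h68_Y hle (le_max_right _ _) hn'
        rw [hh m l _ x h1 hm h2, hh m' l _ x h1 hm' h2]
      · have hx' : x ∉ (u m').Y := by
          rw [hY m']
          rw [hY m] at hx
          exact hx
        rw [(V.basic (hu m)).h1 l ((hS m l).2 ⟨⟨n, hn⟩, hm⟩) x hx,
          (V.basic (hu m')).h1 l ((hS m' l).2 ⟨⟨n, hn⟩, hm'⟩) x hx']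
    · rw [(V.basic (hu m)).h0 l fun h => hl ((hS m l).1 h).1,
        (V.basic (hu m')).h0 l fun h => hl ((hS m' l).1 h).1]
  let q : Cnd Ω I :=
    { Y := (u 0).Y
      R := (u 0).R
      r := (u 0).r
      S := ⋃ n, (qn n).S
      h := fun l => if h : ∃ m, l < il m then (u h.choose).h l else id }
  have hqh : ∀ m l, l < il m → q.h l = (u m).h l := by
    intro m l hl
    have h : ∃ m, l < il m := ⟨m, hl⟩
    have h1 : q.h l = (u h.choose).h l := dif_pos h
    rw [h1]
    exact hhm _ _ l h.choose_spec hl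
  have hq : ∀ m, res q (il m) = u m := by
    intro m
    refine Cnd.ext ?_ ?_ ?_ ?_ ?_
    · exact (hY 0).trans (hY m).symm
    · ext K
      exact (hR 0 K).trans (hR m K).symm
    · funext x
      show (u 0).r x = (u m).r x
      by_cases hx : x ∈ (u 0).Y
      · rw [hY 0, mem_iUnion] at hx
        obtain ⟨n, hn⟩ := hx
        rw [hr 0 x n hn, hr m x n hn]
      · have hx' : x ∉ (u m).Y := by
          rw [hY m]
          rw [hY 0] at hx
          exact hx
        rw [(V.basic (hu 0)).r0 x hx, (V.basic (hu m)).r0 x hx']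
    · ext l
      rw [h55_mem_res_S, hS m l]
      exact and_congr mem_iUnion Iff.rfl
    · funext l
      by_cases hl : l < il m
      · rw [h55_res_h_of_lt _ hl]
        exact hqh m l hl
      · have h1 : (res q (il m)).h l = id := if_neg hl
        rw [h1, (V.basic (hu m)).h0 l fun h => hl ((hS m l).1 h).2]
  have hlet : ∀ l ∈ q.S, ∃ m, l ∈ (u m).S ∧ l < il m := by
    intro l hl
    obtain ⟨n, hn⟩ := mem_iUnion.1 hl
    have h1 : l < il n := V.letters (hV n) l hn
    exact ⟨n, (hS n l).2 ⟨⟨n, hn⟩, h1⟩, h1⟩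
  have hqb : Basic α q := by
    have h0 := V.basic (hu 0)
    refine ⟨h0.cY, countable_iUnion fun n => (V.basic (hV n)).cS, h0.gr, h0.ra, h0.r0, ?_, ?_, ?_⟩
    · intro l hl
      obtain ⟨m, hm, hlm⟩ := hlet l hl
      have h1 := (V.basic (hu m)).ce l hm
      have e1 : (u m).Y = q.Y := (hY m).trans (hY 0).symm
      have e2 : (u m).R = q.R := by
        ext K
        exact (hR m K).trans (hR 0 K).symm
      rw [e1, e2, ← hqh m l hlm] at h1
      exact h1
    · intro l hl
      by_cases hex : ∃ m, l < il m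
      · obtain ⟨m, hm⟩ := hex
        rw [hqh m l hm]
        refine (V.basic (hu m)).h0 l fun h => hl ?_
        exact mem_iUnion.2 ((hS m l).1 h).1
      · exact dif_neg hex
    · intro l hl x hx
      obtain ⟨m, hm, hlm⟩ := hlet l hl
      rw [hqh m l hlm]
      refine (V.basic (hu m)).h1 l hm x ?_
      rw [hY m]
      have hx' : x ∉ (u 0).Y := hx
      rw [hY 0] at hx'
      exact hx'
  refine ⟨q, ?_, hY 0, rfl, hR 0, fun n => ?_⟩
  · rw [mem_V]
    refine ⟨hqb, fun l hl => ?_⟩
    obtain ⟨m, hm, hlm⟩ := hlet l hl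
    obtain ⟨-, h2, h3, h4⟩ := (mem_V.1 (hu m)).2 l hm
    rw [← hq m, res_res hlm.le] at h3 h4
    refine ⟨hlm.trans_le (hi m), h2, h3, ?_⟩
    rw [h55_res_h_of_lt _ hlm] at h4
    exact h4
  · rw [hq n]
    have h1 := (hun n).le 0
    have h2 : res (qn (n + 0)) (il n) = qn n := res_eq_self (V.basic (hV n)) (V.letters (hV n))
    rw [h2] at h1
    exact h1

end F3c

end Pool.Agent.Helper33.QB
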