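import Pool.Agent.Helper33.QB.Defs
import Pool.Agent.Helper84.QB.Acts
import Pool.Agent.Helper45.QB.Ring1
import Pool.Agent.Helper55.QB.Res
import Pool.Agent.Helper68.QB.VDiag

/-!
# Project QB, module M: diagonal unions of conditions below a semi-condition
-/

set_option autoImplicit false
set_option linter.unusedVariables false
set_option linter.unusedSectionVars false

namespace Pool.Agent.Helper33.QB

open Set

universe v

variable {Ω : Type} {I : Type v} {α : Ordinal.{0}}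

section M

variable [LinearOrder I] [WellFoundedLT I] {b : I → NmD Ω I} {pn : ℕ → Cnd Ω I}
  {s p q : Cnd Ω I} {i j m : I}

omit [WellFoundedLT I] in
private theorem h68_res_h {q : Cnd Ω I} {j l : I} (hl : l < j) (x : Ω) :
    (res q j).h l x = q.h l x := by
  simp [res, hl]

theorem bel_diag (hs : Semi α pn s) (hpn : ∀ n, Basic α (pn n)) {qn : ℕ → Cnd Ω I}
    {il : ℕ → I} (him : Monotone il) (hi : ∀ n, il n ≤ i) (hV : ∀ n, qn n ∈ V α b (il n))
    (hle : ∀ n, Le (res (qn (n + 1)) (il n)) (qn n)) (hB : ∀ n, Bel pn s (il n) (qn n))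
    (hcof : ∀ l ∈ s.S, l < i → ∃ n, l < il n) {Kn : ℕ → Set Ω} (hK : ∀ n, Kn n ∈ (qn n).R)
    (hKm : ∀ n, Kn n ⊆ Kn (n + 1)) (hKc : ∀ n, ∀ x ∈ (qn n).Y, ∃ m, x ∈ Kn m)
    (hct : ∀ n, ∀ x ∈ Kn n, ∀ y ∈ Kn n, ∀ g, Acts (BG pn s (il (n + 1)) (qn (n + 1))) g x y →
      Acts (BG pn s (il n) (qn n)) g x y) :
    ∃ q ∈ V α b i, Bel pn s i q ∧ Le (res q (il 0)) (qn 0) ∧
      ∀ x ∈ Kn 0, ∀ y ∈ Kn 0, ∀ g, Acts (BG pn s i q) g x y →
        Acts (BG pn s (il 0) (qn 0)) g x y := by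
  classical
  obtain ⟨q, hqV, hqY, hqS, hqR, hqle⟩ := V.diag him hi hV hle
  have hqb : Basic α q := V.basic hqV
  have hYm : Monotone fun n => (qn n).Y := monotone_nat_of_le_succ fun n => (hle n).cp.sub
  have hYq : ∀ n, (qn n).Y ⊆ q.Y := fun n x hx => by
    rw [hqY]; exact mem_iUnion.2 ⟨n, hx⟩
  have hval : ∀ n, ∀ l ∈ s.S, l < il n → ∀ x ∈ (qn n).Y, q.h l x = (qn n).h l x := by
    intro n l hl hln x hx
    have h1 := (hqle n).h l ((hB n).S l hl hln) x hx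
    rwa [h68_res_h hln] at h1
  have hlate : ∀ g x y, Acts (BG pn s i q) g x y →
      ∃ N : ℕ, ∀ n ≥ N, Acts (BG pn s (il n) (qn n)) g x y := by
    have hedge : ∀ l x y, BG pn s i q l x y → ∃ N : ℕ, ∀ n ≥ N, BG pn s (il n) (qn n) l x y := by
      rintro l x y ⟨hl, hx, h | h⟩
      · obtain ⟨hli, hxY, hy⟩ := h
        obtain ⟨N1, hN1⟩ := hcof l hl hli
        rw [hqY] at hxY
        obtain ⟨N2, hN2⟩ := mem_iUnion.1 hxY
        refine ⟨max N1 N2, fun n hn => ⟨hl, hx, Or.inl ?_⟩⟩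
        have hln : l < il n := lt_of_lt_of_le hN1 (him (le_trans (le_max_left _ _) hn))
        have hxn : x ∈ (qn n).Y := hYm (le_trans (le_max_right _ _) hn) hN2
        exact ⟨hln, hxn, by rw [hy, hval n l hl hln x hxn]⟩
      · exact ⟨0, fun n _ => ⟨hl, hx, Or.inr ⟨le_trans (hi n) h.1, h.2⟩⟩⟩
    intro g x y h
    induction h with
    | one x => exact ⟨0, fun n _ => Acts.one x⟩
    | fwd _ he ih =>
      obtain ⟨N1, hN1⟩ := ih
      obtain ⟨N2, hN2⟩ := hedge _ _ _ he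
      exact ⟨max N1 N2, fun n hn => Acts.fwd (hN1 n (le_trans (le_max_left _ _) hn))
        (hN2 n (le_trans (le_max_right _ _) hn))⟩
    | bwd _ he ih =>
      obtain ⟨N1, hN1⟩ := ih
      obtain ⟨N2, hN2⟩ := hedge _ _ _ he
      exact ⟨max N1 N2, fun n hn => Acts.bwd (hN1 n (le_trans (le_max_left _ _) hn))
        (hN2 n (le_trans (le_max_right _ _) hn))⟩
  have hKmono : Monotone Kn := monotone_nat_of_le_succ hKm
  have hdesc : ∀ m, ∀ x ∈ Kn m, ∀ y ∈ Kn m, ∀ g, ∀ k, Acts (BG pn s (il (m + k)) (qn (m + k))) g x y →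
      Acts (BG pn s (il m) (qn m)) g x y := by
    intro m x hx y hy g k
    induction k with
    | zero => exact fun h => h
    | succ k ih =>
      intro h
      exact ih (hct (m + k) x (hKmono (Nat.le_add_right _ _) hx) y
        (hKmono (Nat.le_add_right _ _) hy) g h)
  have hcontrol : ∀ m, ∀ x ∈ Kn m, ∀ y ∈ Kn m, ∀ g, Acts (BG pn s i q) g x y →
      Acts (BG pn s (il m) (qn m)) g x y := by
    intro m x hx y hy g h
    obtain ⟨N, hN⟩ := hlate g x y h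
    exact hdesc m x hx y hy g N (hN (m + N) (Nat.le_add_left _ _))
  refine ⟨q, hqV, ?_, hqle 0, hcontrol 0⟩
  refine ⟨⟨?_, ?_, ?_, ?_⟩, ?_, ?_, ?_, ?_, ?_⟩
  · exact fun x hx => hYq 0 ((hB 0).cp.sub hx)
  · intro K
    constructor
    · intro hKs
      have h1 := ((hB 0).cp.ring K).1 hKs
      exact ⟨(hqR K).2 ⟨0, h1.1⟩, h1.2⟩
    · rintro ⟨h1, h2⟩
      obtain ⟨n, hn⟩ := (hqR K).1 h1
      exact ((hB n).cp.ring K).2 ⟨hn, h2⟩
  · intro K hKq
    obtain ⟨n, hn⟩ := (hqR K).1 hKq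
    exact (hqR _).2 ⟨n, (hB n).cp.cut K hn⟩
  · intro x hx
    have h1 := (hqle 0).cp.rk x ((hB 0).cp.sub hx)
    have h2 : (res q (il 0)).r x = q.r x := rfl
    rw [h2] at h1
    rw [h1, (hB 0).cp.rk x hx]
  · intro l hl hli
    obtain ⟨n, hn⟩ := hcof l hl hli
    rw [hqS]
    exact mem_iUnion.2 ⟨n, (hB n).S l hl hn⟩
  · intro l hl hli x hx
    obtain ⟨n, hn⟩ := hcof l hl hli
    rw [hval n l hl hn x ((hB n).cp.sub hx), (hB n).h l hl hn x hx]
  · intro l hl hli x hx hxo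
    obtain ⟨N1, hN1⟩ := hcof l hl hli
    rw [hqY] at hx
    obtain ⟨N2, hN2⟩ := mem_iUnion.1 hx
    have hln : l < il (max N1 N2) := lt_of_lt_of_le hN1 (him (le_max_left _ _))
    have hxn : x ∈ (qn (max N1 N2)).Y := hYm (le_max_right _ _) hN2
    rw [hval _ l hl hln x hxn]
    exact (hB _).out l hl hln x hxn hxo
  · intro g x h
    obtain ⟨N, hN⟩ := hlate g x x h
    exact (hB N).fr g x (hN N le_rfl)
  · intro K hKq
    have hcov : K ⊆ ⋃ n, Kn n := by
      intro x hx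
      have hxY := hqb.gr.sub K hKq hx
      rw [hqY] at hxY
      obtain ⟨n, hn⟩ := mem_iUnion.1 hxY
      obtain ⟨m, hm⟩ := hKc n x hn
      exact mem_iUnion.2 ⟨m, hm⟩
    obtain ⟨m, hm⟩ := hqb.gr.compact_seq hKq (fun n => (hqR _).2 ⟨n, hK n⟩) hKmono hcov
    refine ((hB m).pr (Kn m) (hK m)).subset ?_
    rintro g ⟨x, hx, y, hy, h⟩
    exact ⟨x, hm hx, y, hm hy, hcontrol m x (hm hx) y (hm hy) g h⟩

end M

end Pool.Agent.Helper33.QB
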