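import Pool.Agent.Helper64.QB.NmDefs
import Pool.Agent.Helper84.QB.Acts
import Pool.Agent.Helper61.QB.Order
import Pool.Agent.Helper55.QB.Res
import Pool.Agent.Helper68.QB.Diag

/-!
# Project QB, module N3: the limit case of the extension lemma
-/

set_option autoImplicit false
set_option linter.unusedVariables false
set_option linter.unusedSectionVars false

namespace Pool.Agent.Helper33.QB

open Set

universe v

variable {Ω : Type} {I : Type v} {α : Ordinal.{0}}

section N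

/-- Sequences built step by step. -/
private theorem h68_exists_seq {β : Type*} (P : ℕ → β → Prop) (R : ℕ → β → β → Prop) (b0 : β)
    (h0 : P 0 b0) (hs : ∀ n b, P n b → ∃ b', P (n + 1) b' ∧ R n b b') :
    ∃ f : ℕ → β, f 0 = b0 ∧ (∀ n, P n (f n)) ∧ ∀ n, R n (f n) (f (n + 1)) := by
  classical
  choose nx hnx using hs
  let g : (n : ℕ) → {b // P n b} := fun n =>
    Nat.rec ⟨b0, h0⟩ (fun n b => ⟨nx n b.1 b.2, (hnx n b.1 b.2).1⟩) n
  exact ⟨fun n => (g n).1, rfl, fun n => (g n).2, fun n => (hnx n (g n).1 (g n).2).2⟩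

/-- A cofinal sequence in a countable set without greatest element. -/
private theorem h68_exists_il [LinearOrder I] {S : Set I} (hS : S.Countable) {i j : I} (hji : j ≤ i)
    (hne : ∃ l ∈ S, j ≤ l ∧ l < i)
    (hno : ∀ l ∈ S, j ≤ l → l < i → ∃ l' ∈ S, l < l' ∧ l' < i) :
    ∃ il : ℕ → I, Monotone il ∧ il 0 = j ∧ (∀ n, il n ≤ i) ∧ (∀ n, il (n + 1) < i) ∧
      ∀ l ∈ S, l < i → ∃ n, l < il n := by
  classical
  have hL : {l | l ∈ S ∧ j ≤ l ∧ l < i}.Countable := hS.mono fun l hl => hl.1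
  obtain ⟨l0, hl0, hl0j, hl0i⟩ := hne
  obtain ⟨e, he⟩ := hL.exists_eq_range ⟨l0, hl0, hl0j, hl0i⟩
  have hemem : ∀ n, e n ∈ S ∧ j ≤ e n ∧ e n < i := fun n => by
    have : e n ∈ {l | l ∈ S ∧ j ≤ l ∧ l < i} := by rw [he]; exact mem_range_self n
    exact this
  obtain ⟨il, h0, hP, hR⟩ := h68_exists_seq (β := I)
    (fun n a => a = j ∨ (a ∈ S ∧ j ≤ a ∧ a < i))
    (fun n a a' => a ≤ a' ∧ e n < a' ∧ a' < i) j (Or.inl rfl) (by
      intro n a ha
      have hm : max a (e n) ∈ S ∧ j ≤ max a (e n) ∧ max a (e n) < i := by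
        rcases ha with ha | ha
        · subst ha
          rw [max_eq_right (hemem n).2.1]
          exact hemem n
        · rcases le_total a (e n) with h | h
          · rw [max_eq_right h]; exact hemem n
          · rw [max_eq_left h]; exact ha
      obtain ⟨l', hl', h1, h2⟩ := hno _ hm.1 hm.2.1 hm.2.2
      exact ⟨l', Or.inr ⟨hl', le_trans hm.2.1 h1.le, h2⟩, le_trans (le_max_left _ _) h1.le,
        lt_of_le_of_lt (le_max_right _ _) h1, h2⟩)
  refine ⟨il, monotone_nat_of_le_succ fun n => (hR n).1, h0, ?_, fun n => (hR n).2.2, ?_⟩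
  · intro n
    rcases hP n with h | h
    · rw [h]; exact hji
    · exact h.2.2.le
  · intro l hl hli
    rcases lt_or_ge l j with h | h
    · exact ⟨0, by rw [h0]; exact h⟩
    · have : l ∈ {l | l ∈ S ∧ j ≤ l ∧ l < i} := ⟨hl, h, hli⟩
      rw [he] at this
      obtain ⟨n, rfl⟩ := this
      exact ⟨n + 1, (hR n).2.1⟩

/-- An exhaustion of a condition. -/
private theorem h68_exhaust {c : Cnd Ω I} (hc : Basic α c) :
    ∃ u : ℕ → Set Ω, (∀ t, u t ∈ c.R) ∧ c.Y ⊆ ⋃ t, u t := by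
  classical
  rcases c.Y.eq_empty_or_nonempty with h | h
  · exact ⟨fun _ => ∅, fun _ => hc.gr.emp, by rw [h]; exact empty_subset _⟩
  · obtain ⟨e, he⟩ := hc.cY.exists_eq_range h
    have hmem : ∀ n, e n ∈ c.Y := fun n => by rw [he]; exact mem_range_self n
    choose u hu1 hu2 using fun n => hc.gr.cov (e n) (hmem n)
    refine ⟨u, hu1, ?_⟩
    intro x hx
    rw [he] at hx
    obtain ⟨n, rfl⟩ := hx
    exact mem_iUnion.2 ⟨n, hu2 n⟩

/-- Finite unions of members of the ring of a condition. -/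
private theorem h68_fin_union {Y : Set Ω} {R : Set (Set Ω)} {r : Ω → Ordinal.{0}} (h : GR Y R r)
    {u : ℕ → Set Ω} (hu : ∀ t, u t ∈ R) (n : ℕ) : (⋃ t ∈ Iic n, u t) ∈ R := by
  induction n with
  | zero =>
    have : (⋃ t ∈ Iic 0, u t) = u 0 := by
      ext x; simp
    rw [this]; exact hu 0
  | succ n ih =>
    have : (⋃ t ∈ Iic (n + 1), u t) = (⋃ t ∈ Iic n, u t) ∪ u (n + 1) := by
      ext x
      simp only [mem_iUnion, mem_Iic, mem_union, exists_prop]
      constructor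
      · rintro ⟨t, ht, hx⟩
        rcases Nat.lt_or_ge t (n + 1) with h | h
        · exact Or.inl ⟨t, Nat.lt_succ_iff.1 h, hx⟩
        · have : t = n + 1 := le_antisymm ht h
          subst this
          exact Or.inr hx
      · rintro (⟨t, ht, hx⟩ | hx)
        · exact ⟨t, le_trans ht (Nat.le_succ n), hx⟩
        · exact ⟨n + 1, le_rfl, hx⟩
    rw [this]
    exact h.un _ ih _ (hu _)

variable [LinearOrder I] [WellFoundedLT I] {b : I → NmD Ω I} {i m : I}

/-- The limit case: the letters of `s` in `[j, i)` have no greatest element. -/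
theorem ext_lim (hα : Ind α) (hE : ∀ m < i, ExtSpec α b m) {pn : ℕ → Cnd Ω I}
    {s : Cnd Ω I} (hpn : ∀ n, pn n ∈ VT α b) (hle : ∀ n, Le (pn (n + 1)) (pn n))
    (hs : Semi α pn s) {j : I} (hji : j ≤ i) (hne : ∃ l ∈ s.S, j ≤ l ∧ l < i)
    (hno : ∀ l ∈ s.S, j ≤ l → l < i → ∃ l' ∈ s.S, l < l' ∧ l' < i) {r : Cnd Ω I}
    (hr : r ∈ V α b j) (hB : Bel pn s j r) {K : Set Ω} (hK : K ∈ r.R) :
    ∃ q ∈ V α b i, Bel pn s i q ∧ Le (res q j) r ∧
      ∀ x ∈ K, ∀ y ∈ K, ∀ g, Acts (BG pn s i q) g x y → Acts (BG pn s j r) g x y := by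
  classical
  obtain ⟨il, him, h0, hi, hi', hcof⟩ := h68_exists_il hs.basic.cS hji hne hno
  have hpb : ∀ n, Basic α (pn n) := fun n => by
    obtain ⟨k, hk⟩ := hpn n
    exact V.basic hk
  have hex : ∀ c : Cnd Ω I, ∃ u : ℕ → Set Ω, Basic α c → ((∀ t, u t ∈ c.R) ∧ c.Y ⊆ ⋃ t, u t) := by
    intro c
    by_cases hc : Basic α c
    · obtain ⟨u, hu⟩ := h68_exhaust hc
      exact ⟨u, fun _ => hu⟩
    · exact ⟨fun _ => ∅, fun h => absurd h hc⟩
  choose ex hex using hex
  obtain ⟨f, hf0, hP, hR⟩ := h68_exists_seq (β := Cnd Ω I × Set Ω × List (Cnd Ω I))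
    (fun n st => st.1 ∈ V α b (il n) ∧ Bel pn s (il n) st.1 ∧ st.2.1 ∈ st.1.R ∧
      ∀ c ∈ st.2.2, Basic α c ∧ ∀ O ∈ c.R, O ∈ st.1.R)
    (fun n st st' => Le (res st'.1 (il n)) st.1 ∧ st.2.1 ⊆ st'.2.1 ∧ st'.2.2 = st'.1 :: st.2.2 ∧
      (∀ c ∈ st'.2.2, ∀ t ≤ n, ex c t ⊆ st'.2.1) ∧
      ∀ x ∈ st.2.1, ∀ y ∈ st.2.1, ∀ g, Acts (BG pn s (il (n + 1)) st'.1) g x y →
        Acts (BG pn s (il n) st.1) g x y) (r, K, [r])
    (by
      have hrb : Basic α r := V.basic hr
      rw [h0]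
      refine ⟨hr, hB, hK, ?_⟩
      intro c hc
      simp only [List.mem_singleton] at hc
      subst hc
      exact ⟨hrb, fun O hO => hO⟩)
    (by
      rintro n ⟨q, Kq, H⟩ ⟨hq, hBq, hKq, hH⟩
      obtain ⟨q', hq', hBq', hle', hct⟩ := hE (il (n + 1)) (hi' n) pn s hpn hle hs (il n)
        (him (Nat.le_succ n)) q hq hBq Kq hKq
      have hqb : Basic α q := V.basic hq
      have hqb' : Basic α q' := V.basic hq'
      have hRR : ∀ O ∈ q.R, O ∈ q'.R := fun O hO => ((hle'.cp.ring O).1 hO).1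
      have hH' : ∀ c ∈ q' :: H, Basic α c ∧ ∀ O ∈ c.R, O ∈ q'.R := by
        intro c hc
        rcases List.mem_cons.1 hc with hc | hc
        · subst hc; exact ⟨hqb', fun O hO => hO⟩
        · exact ⟨(hH c hc).1, fun O hO => hRR O ((hH c hc).2 O hO)⟩
      have hbig : ∃ K' ∈ q'.R, Kq ⊆ K' ∧ ∀ c ∈ q' :: H, ∀ t ≤ n, ex c t ⊆ K' := by
        have hgen : ∀ L : List (Cnd Ω I), (∀ c ∈ L, Basic α c ∧ ∀ O ∈ c.R, O ∈ q'.R) →
            ∃ K' ∈ q'.R, Kq ⊆ K' ∧ ∀ c ∈ L, ∀ t ≤ n, ex c t ⊆ K' := by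
          intro L
          induction L with
          | nil => exact fun _ => ⟨Kq, hRR _ hKq, Subset.rfl, fun c hc => by simp at hc⟩
          | cons a L ih =>
            intro hL
            obtain ⟨K1, hK1, h1, h2⟩ := ih fun c hc => hL c (List.mem_cons_of_mem _ hc)
            have ha := hL a List.mem_cons_self
            refine ⟨K1 ∪ ⋃ t ∈ Iic n, ex a t, hqb'.gr.un _ hK1 _
              (h68_fin_union hqb'.gr (fun t => ha.2 _ ((hex a ha.1).1 t)) n),
              fun x hx => Or.inl (h1 hx), ?_⟩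
            intro c hc t ht
            rcases List.mem_cons.1 hc with hc | hc
            · subst hc
              intro x hx
              exact Or.inr (mem_biUnion (mem_Iic.2 ht) hx)
            · exact fun x hx => Or.inl (h2 c hc t ht hx)
        exact hgen _ hH'
      obtain ⟨K', hK', hKK, hexK⟩ := hbig
      exact ⟨(q', K', q' :: H), ⟨hq', hBq', hK', hH'⟩, hle', hKK, rfl, hexK, hct⟩)
  have hmem : ∀ n k, (f n).1 ∈ (f (n + k)).2.2 := by
    intro n k
    induction k with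
    | zero =>
      cases n with
      | zero => rw [hf0]; simp
      | succ n => rw [(hR n).2.2.1]; exact List.mem_cons_self
    | succ k ih =>
      have := (hR (n + k)).2.2.1
      rw [← add_assoc, this]
      exact List.mem_cons_of_mem _ ih
  obtain ⟨q, hq, hBq, hqle, hct⟩ := bel_diag (b := b) hs hpb (qn := fun n => (f n).1) (il := il) him hi
    (fun n => (hP n).1) (fun n => (hR n).1) (fun n => (hP n).2.1) hcof (Kn := fun n => (f n).2.1)
    (fun n => (hP n).2.2.1) (fun n => (hR n).2.1)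
    (by
      intro n x hx
      have hb := V.basic (hP n).1
      obtain ⟨t, ht⟩ := mem_iUnion.1 ((hex _ hb).2 hx)
      have h1 := (hR (n + t)).2.2.2.1 (f n).1 (by
        have := hmem n (t + 1)
        rwa [← add_assoc] at this) t (Nat.le_add_left _ _)
      exact ⟨n + t + 1, h1 ht⟩)
    (fun n => (hR n).2.2.2.2)
  simp only [hf0, h0] at hqle hct
  exact ⟨q, hq, hBq, hqle, hct⟩

end N

end Pool.Agent.Helper33.QB
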