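import Mathlib

/-!
# The parameters of the strong form
-/

set_option autoImplicit false

open Finset

namespace Pool.Agent.Helper68.QB

theorem two_pow_le_exp {b : ℕ} {s : ℝ} (h : (b : ℝ) ≤ s + 1) : (2 : ℝ) ^ b ≤ Real.exp (s + 1) := by
  calc (2 : ℝ) ^ b ≤ (Real.exp 1) ^ b :=
        pow_le_pow_left₀ (by norm_num) (by have := Real.add_one_le_exp (1 : ℝ); linarith) b
    _ = Real.exp b := by rw [← Real.exp_nat_mul]; simp
    _ ≤ _ := Real.exp_le_exp.mpr h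

/-- the algebraic part -/
theorem core {c c2 : ℝ} (hcd : c = 512 * 20992 ^ 4) (hc2d : c2 = 64 * 20992 ^ 2 * (2 * c) ^ 2)
    {ε C' y : ℝ} {N b : ℕ} (hN1 : 1 ≤ N) (hb : 2 ≤ b) (hy : 1 ≤ y) (hyN : y ≤ N)
    (hy4 : y ^ 4 ≤ N) (hNb : (N : ℝ) ^ 2 ≤ 2 ^ (4 * b ^ 2)) (hlog : Real.log N ≤ (b : ℝ) ^ 2)
    (hE2 : 16 * c * ((2 : ℝ) ^ b) ^ 20 ≤ (N : ℝ) ^ 2)
    (hE4 : 56 * c2 * |C'| * ((2 : ℝ) ^ b) ^ 54 * (y ^ 8 * (N : ℝ) ^ (ε / 10) *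
      (N : ℝ) ^ (1 - ε)) ≤ 20 * N)
    {Q : ℝ} (hQ : 15 * c2 * ((2 : ℝ) ^ b) ^ 53 * y ^ 10 ≤ Q) :
    ∃ (X W R : ℕ) (H : ℕ → ℕ),
      16 * (2 ^ (b + 1)) ^ 2 ≤ X ∧ 1 ≤ N ∧ 1 ≤ W ∧
      32 * W * (2 ^ (b + 1)) ^ (b + 2) ≤ X ^ (b + 1) ∧ 1 ≤ R ∧
      2 * (R : ℝ) + 1 ≤ Q ∧ 6 ≤ X * W ∧
      40 * (N : ℝ) ^ 2 ≤ W * (N / y) ∧ N ≤ X * W / 2 ∧
      (∀ i < 6, 512 * (2 ^ i * (X * W / 2)) ^ 4 ≤ H i * N ^ 4) ∧
      (2 : ℝ) ^ (b + 2) * (∑ i ∈ range 6, 64 * ((2 ^ i * (X * W / 2) : ℕ) : ℝ) ^ 2 / N *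
        (H i : ℝ) ^ 2 * (1 + Real.log (8 * H i * N : ℕ)) / R +
        C' * (N : ℝ) ^ (ε / 10) * R * (2 * (N : ℝ) ^ (1 - ε))) ≤ W := by
  have hc1 : 1 ≤ c := by rw [hcd]; norm_num
  have hc0 : 0 < c := by linarith
  have hc21 : 1 ≤ c2 := by rw [hc2d, hcd]; norm_num
  have hc20 : 0 < c2 := by linarith
  have hNR : (1 : ℝ) ≤ N := by exact_mod_cast hN1
  have hN0 : (0 : ℝ) < N := by linarith
  have hy0 : 0 < y := by linarith
  obtain ⟨P, hP⟩ : ∃ P : ℕ, P = 2 ^ b := ⟨_, rfl⟩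
  obtain ⟨p, hp⟩ : ∃ p : ℝ, p = (2 : ℝ) ^ b := ⟨_, rfl⟩
  have hPp : (P : ℝ) = p := by rw [hP, hp]; push_cast; rfl
  have hP4 : 4 ≤ P := by
    rw [hP]
    calc 4 = 2 ^ 2 := by norm_num
      _ ≤ 2 ^ b := Nat.pow_le_pow_right (by norm_num) hb
  have hp4 : (4 : ℝ) ≤ p := by rw [← hPp]; exact_mod_cast hP4
  have hp1 : (1 : ℝ) ≤ p := by linarith
  have hp0 : (0 : ℝ) < p := by linarith
  have hbp : (b : ℝ) ≤ p := by
    rw [← hPp, hP]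
    exact_mod_cast (Nat.lt_two_pow_self (n := b)).le
  rw [← hp] at hE2 hE4 hQ
  -- W
  obtain ⟨W, hWd⟩ : ∃ W : ℕ, W = ⌈40 * N * y⌉₊ := ⟨_, rfl⟩
  have hW1 : 40 * N * y ≤ W := by rw [hWd]; exact Nat.le_ceil _
  have hNy : (1 : ℝ) ≤ N * y := by nlinarith
  have hW2 : (W : ℝ) ≤ 41 * N * y := by
    have := (Nat.ceil_lt_add_one (a := 40 * N * y) (by positivity)).le
    rw [hWd]
    linarith
  have hWR : (1 : ℝ) ≤ W := by nlinarith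
  have hWN : 1 ≤ W := by exact_mod_cast hWR
  -- H
  obtain ⟨H, hHd⟩ : ∃ H : ℕ, H = ⌈c * p ^ 20 * y ^ 4⌉₊ := ⟨_, rfl⟩
  have hH1 : c * p ^ 20 * y ^ 4 ≤ H := by rw [hHd]; exact Nat.le_ceil _
  have hcp : 1 ≤ c * p ^ 20 * y ^ 4 := by
    have e1 : (1 : ℝ) ≤ p ^ 20 := one_le_pow₀ hp1
    have e2 : (1 : ℝ) ≤ y ^ 4 := one_le_pow₀ hy
    exact one_le_mul_of_one_le_of_one_le (one_le_mul_of_one_le_of_one_le hc1 e1) e2
  have hH2 : (H : ℝ) ≤ 2 * c * p ^ 20 * y ^ 4 := by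
    have := (Nat.ceil_lt_add_one (a := c * p ^ 20 * y ^ 4) (by positivity)).le
    rw [hHd]
    linarith
  -- R
  obtain ⟨R, hRd⟩ : ∃ R : ℕ, R = ⌈6 * c2 * p ^ 53 * y ^ 9⌉₊ := ⟨_, rfl⟩
  have hR1 : 6 * c2 * p ^ 53 * y ^ 9 ≤ R := by rw [hRd]; exact Nat.le_ceil _
  have hcq : 1 ≤ c2 * p ^ 53 * y ^ 9 := by
    have e1 : (1 : ℝ) ≤ p ^ 53 := one_le_pow₀ hp1
    have e2 : (1 : ℝ) ≤ y ^ 9 := one_le_pow₀ hy
    exact one_le_mul_of_one_le_of_one_le (one_le_mul_of_one_le_of_one_le hc21 e1) e2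
  have hR2 : (R : ℝ) ≤ 7 * c2 * p ^ 53 * y ^ 9 := by
    have := (Nat.ceil_lt_add_one (a := 6 * c2 * p ^ 53 * y ^ 9) (by positivity)).le
    rw [hRd]
    linarith
  have hRR : (1 : ℝ) ≤ R := by linarith
  have hR0 : (0 : ℝ) < R := by linarith
  have hRN : 1 ≤ R := by exact_mod_cast hRR
  -- U
  have hU : 32 * P ^ 5 * W / 2 = 16 * P ^ 5 * W := by
    rw [show 32 * P ^ 5 * W = 2 * (16 * P ^ 5 * W) by ring]
    exact Nat.mul_div_cancel_left _ (by norm_num)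
  have hUR : ((16 * P ^ 5 * W : ℕ) : ℝ) ≤ 656 * p ^ 5 * N * y := by
    push_cast
    rw [hPp]
    have := mul_le_mul_of_nonneg_left hW2 (by positivity : (0 : ℝ) ≤ 16 * p ^ 5)
    linarith
  have hV : ∀ i < 6, ((2 ^ i * (16 * P ^ 5 * W) : ℕ) : ℝ) ≤ 20992 * p ^ 5 * N * y := by
    intro i hi
    have e1 : (2 : ℝ) ^ i ≤ 2 ^ 5 := pow_le_pow_right₀ (by norm_num) (by omega)
    rw [Nat.cast_mul, Nat.cast_pow, Nat.cast_ofNat]
    calc (2 : ℝ) ^ i * ((16 * P ^ 5 * W : ℕ) : ℝ) ≤ 2 ^ 5 * (656 * p ^ 5 * N * y) :=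
          mul_le_mul e1 hUR (by positivity) (by norm_num)
      _ = _ := by ring
  refine ⟨32 * P ^ 5, W, R, fun _ => H, ?_, hN1, hWN, ?_, hRN, ?_, ?_, ?_, ?_, ?_, ?_⟩
  · rw [pow_succ 2 b, ← hP]
    have e1 : 4 ^ 3 ≤ P ^ 3 := Nat.pow_le_pow_left hP4 3
    have e2 : P ^ 5 = P ^ 2 * P ^ 3 := by ring
    have e3 : (P * 2) ^ 2 = 4 * P ^ 2 := by ring
    rw [e2, e3]
    have e4 : P ^ 2 * 64 ≤ P ^ 2 * P ^ 3 := Nat.mul_le_mul_left _ (by omega)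
    omega
  · have e1 : W ≤ 2 ^ (4 * b ^ 2 + 6) := by
      have e2 : (W : ℝ) ≤ ((2 ^ (4 * b ^ 2 + 6) : ℕ) : ℝ) := by
        push_cast
        rw [pow_add]
        have e3 : (N : ℝ) * y ≤ N ^ 2 := by nlinarith
        nlinarith
      exact_mod_cast e2
    have e4 : 32 * P ^ 5 = 2 ^ (5 * b + 5) := by
      rw [hP, ← pow_mul, pow_add]
      ring
    rw [e4, ← pow_mul, ← pow_mul]
    calc 32 * W * 2 ^ ((b + 1) * (b + 2)) ≤ 32 * 2 ^ (4 * b ^ 2 + 6) * 2 ^ ((b + 1) * (b + 2)) :=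
          Nat.mul_le_mul_right _ (Nat.mul_le_mul_left _ e1)
      _ = 2 ^ (5 + (4 * b ^ 2 + 6) + (b + 1) * (b + 2)) := by
          rw [pow_add 2 (5 + (4 * b ^ 2 + 6)), pow_add 2 5, show (2 : ℕ) ^ 5 = 32 by norm_num]
      _ ≤ 2 ^ ((5 * b + 5) * (b + 1)) := Nat.pow_le_pow_right (by norm_num) (by nlinarith)
  · have e1 : y ^ 9 ≤ y ^ 10 := pow_le_pow_right₀ hy (by norm_num)
    have e2 := mul_le_mul_of_nonneg_left e1 (by positivity : (0 : ℝ) ≤ 15 * c2 * p ^ 53)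
    linarith
  · have e1 : 1 ≤ P ^ 5 := Nat.one_le_pow _ _ (by omega)
    nlinarith
  · have e1 := mul_le_mul_of_nonneg_right hW1 (by positivity : (0 : ℝ) ≤ N / y)
    have e2 : 40 * (N : ℝ) * y * (N / y) = 40 * N ^ 2 := by
      field_simp
    linarith
  · rw [hU]
    have e1 : 1 ≤ P ^ 5 := Nat.one_le_pow _ _ (by omega)
    have e2 : (N : ℝ) ≤ W := by nlinarith
    have e3 : N ≤ W := by exact_mod_cast e2
    nlinarith
  · intro i hi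
    rw [hU]
    have e1 := hV i hi
    have e2 : ((512 * (2 ^ i * (16 * P ^ 5 * W)) ^ 4 : ℕ) : ℝ) ≤ ((H * N ^ 4 : ℕ) : ℝ) := by
      have e0 : ((512 * (2 ^ i * (16 * P ^ 5 * W)) ^ 4 : ℕ) : ℝ) =
          512 * ((2 ^ i * (16 * P ^ 5 * W) : ℕ) : ℝ) ^ 4 := by push_cast; ring
      have e0' : ((H * N ^ 4 : ℕ) : ℝ) = H * (N : ℝ) ^ 4 := by push_cast; ring
      rw [e0, e0']
      have e3 : ((2 ^ i * (16 * P ^ 5 * W) : ℕ) : ℝ) ^ 4 ≤ (20992 * p ^ 5 * N * y) ^ 4 :=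
        pow_le_pow_left₀ (Nat.cast_nonneg _) e1 4
      have e4 : 512 * (20992 * p ^ 5 * N * y) ^ 4 = c * p ^ 20 * y ^ 4 * N ^ 4 := by
        rw [hcd]; ring
      have e5 := mul_le_mul_of_nonneg_right hH1 (by positivity : (0 : ℝ) ≤ (N : ℝ) ^ 4)
      linarith
    exact_mod_cast e2
  · rw [hU]
    have hL : 1 + Real.log (8 * H * N : ℕ) ≤ 5 * p ^ 2 := by
      have hHpos : 0 < (H : ℝ) := by linarith
      have e1 : ((8 * H * N : ℕ) : ℝ) ≤ (N : ℝ) ^ 4 := by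
        push_cast
        have e2 : 8 * (H : ℝ) * N ≤ 8 * (2 * c * p ^ 20 * y ^ 4) * N := by
          have := mul_le_mul_of_nonneg_right hH2 hN0.le
          linarith
        have e3 : 8 * (2 * c * p ^ 20 * y ^ 4) * N = 16 * c * p ^ 20 * (y ^ 4 * N) := by ring
        have e4 : 16 * c * p ^ 20 * (y ^ 4 * N) ≤ N ^ 2 * (N * N) :=
          mul_le_mul hE2 (mul_le_mul_of_nonneg_right hy4 hN0.le) (by positivity) (by positivity)
        have e5 : (N : ℝ) ^ 2 * (N * N) = N ^ 4 := by ring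
        linarith
      have e6 : Real.log (8 * H * N : ℕ) ≤ Real.log ((N : ℝ) ^ 4) := by
        apply Real.log_le_log _ e1
        push_cast
        positivity
      rw [Real.log_pow] at e6
      push_cast at e6
      have e7 : (b : ℝ) ^ 2 ≤ p ^ 2 := pow_le_pow_left₀ (Nat.cast_nonneg _) hbp 2
      push_cast
      nlinarith
    have hterm : ∀ i ∈ range 6, 64 * ((2 ^ i * (16 * P ^ 5 * W) : ℕ) : ℝ) ^ 2 / N *
        (H : ℝ) ^ 2 * (1 + Real.log (8 * H * N : ℕ)) / R ≤ 5 * c2 * p ^ 52 * N * y ^ 10 / R := by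
      intro i hi
      rw [mem_range] at hi
      have e1 := hV i hi
      apply div_le_div_of_nonneg_right _ hR0.le
      have e3 : ((2 ^ i * (16 * P ^ 5 * W) : ℕ) : ℝ) ^ 2 ≤ (20992 * p ^ 5 * N * y) ^ 2 :=
        pow_le_pow_left₀ (Nat.cast_nonneg _) e1 2
      have e4 : (H : ℝ) ^ 2 ≤ (2 * c * p ^ 20 * y ^ 4) ^ 2 :=
        pow_le_pow_left₀ (Nat.cast_nonneg _) hH2 2
      have e5 : 64 * ((2 ^ i * (16 * P ^ 5 * W) : ℕ) : ℝ) ^ 2 / N ≤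
          64 * (20992 * p ^ 5 * N * y) ^ 2 / N :=
        div_le_div_of_nonneg_right (by linarith) hN0.le
      have e6 : 0 ≤ 1 + Real.log (8 * H * N : ℕ) := by
        have : 0 ≤ Real.log (8 * H * N : ℕ) := Real.log_natCast_nonneg _
        linarith
      calc 64 * ((2 ^ i * (16 * P ^ 5 * W) : ℕ) : ℝ) ^ 2 / N * (H : ℝ) ^ 2 *
            (1 + Real.log (8 * H * N : ℕ)) ≤
            64 * (20992 * p ^ 5 * N * y) ^ 2 / N * (2 * c * p ^ 20 * y ^ 4) ^ 2 * (5 * p ^ 2) :=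
            mul_le_mul (mul_le_mul e5 e4 (by positivity) (by positivity)) hL e6 (by positivity)
        _ = 5 * c2 * p ^ 52 * N * y ^ 10 := by
            rw [hc2d]
            field_simp
    have hsum := Finset.sum_le_sum hterm
    rw [sum_const, card_range, nsmul_eq_mul] at hsum
    have h53 : (6 : ℝ) * (5 * c2 * p ^ 52 * N * y ^ 10 / R) * (4 * p) ≤ 20 * N * y := by
      rw [show (6 : ℝ) * (5 * c2 * p ^ 52 * N * y ^ 10 / R) * (4 * p) =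
        (20 * N * y * (6 * c2 * p ^ 53 * y ^ 9)) / R by ring]
      rw [div_le_iff₀ hR0]
      exact mul_le_mul_of_nonneg_left hR1 (by positivity)
    have hlast : (4 * p) * (C' * (N : ℝ) ^ (ε / 10) * R * (2 * (N : ℝ) ^ (1 - ε))) ≤
        20 * N * y := by
      have g1 : 0 ≤ (N : ℝ) ^ (ε / 10) := by positivity
      have g2 : 0 ≤ (N : ℝ) ^ (1 - ε) := by positivity
      have g3 : C' * (N : ℝ) ^ (ε / 10) * R * (2 * (N : ℝ) ^ (1 - ε)) ≤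
          |C'| * (N : ℝ) ^ (ε / 10) * (7 * c2 * p ^ 53 * y ^ 9) * (2 * (N : ℝ) ^ (1 - ε)) := by
        apply mul_le_mul_of_nonneg_right _ (by positivity)
        exact mul_le_mul (mul_le_mul_of_nonneg_right (le_abs_self _) g1) hR2 hR0.le
          (by positivity)
      have g4 := mul_le_mul_of_nonneg_left g3 (by positivity : (0 : ℝ) ≤ 4 * p)
      have g5 := mul_le_mul_of_nonneg_right hE4 hy0.le
      have g6 : (4 * p) * (|C'| * (N : ℝ) ^ (ε / 10) * (7 * c2 * p ^ 53 * y ^ 9) *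
          (2 * (N : ℝ) ^ (1 - ε))) = 56 * c2 * |C'| * p ^ 54 * (y ^ 8 * (N : ℝ) ^ (ε / 10) *
          (N : ℝ) ^ (1 - ε)) * y := by ring
      linarith
    have hpw : (2 : ℝ) ^ (b + 2) = 4 * p := by rw [hp, pow_add]; ring
    rw [hpw, mul_add]
    have hs2 := mul_le_mul_of_nonneg_left hsum (by positivity : (0 : ℝ) ≤ 4 * p)
    push_cast at hs2 hlast h53 hW1 ⊢
    linarith

theorem pardU : ∃ C : ℝ, 0 < C ∧ ∀ ε : ℝ, 0 < ε → ε ≤ 1 → ∀ C' : ℝ, ∃ N0 : ℕ, ∀ N : ℕ, N0 ≤ N →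
    ∀ y : ℝ, 1 ≤ y → y ^ 10 ≤ (N : ℝ) ^ ε → ∃ (b X W R : ℕ) (H : ℕ → ℕ),
      16 * (2 ^ (b + 1)) ^ 2 ≤ X ∧ 1 ≤ N ∧ 1 ≤ W ∧
      32 * W * (2 ^ (b + 1)) ^ (b + 2) ≤ X ^ (b + 1) ∧ 1 ≤ R ∧
      2 * (R : ℝ) + 1 ≤ y ^ 10 * Real.exp (C * √(Real.log N)) ∧ 6 ≤ X * W ∧
      40 * (N : ℝ) ^ 2 ≤ W * (N / y) ∧ N ≤ X * W / 2 ∧
      (∀ i < 6, 512 * (2 ^ i * (X * W / 2)) ^ 4 ≤ H i * N ^ 4) ∧
      (2 : ℝ) ^ (b + 2) * (∑ i ∈ range 6, 64 * ((2 ^ i * (X * W / 2) : ℕ) : ℝ) ^ 2 / N *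
        (H i : ℝ) ^ 2 * (1 + Real.log (8 * H i * N : ℕ)) / R +
        C' * (N : ℝ) ^ (ε / 10) * R * (2 * (N : ℝ) ^ (1 - ε))) ≤ W := by
  obtain ⟨c, hcd⟩ : ∃ c : ℝ, c = 512 * 20992 ^ 4 := ⟨_, rfl⟩
  obtain ⟨c2, hc2d⟩ : ∃ c2 : ℝ, c2 = 64 * 20992 ^ 2 * (2 * c) ^ 2 := ⟨_, rfl⟩
  have hc1 : 1 ≤ c := by rw [hcd]; norm_num
  have hc0 : 0 < c := by linarith
  have hc21 : 1 ≤ c2 := by rw [hc2d, hcd]; norm_num
  have hc20 : 0 < c2 := by linarith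
  refine ⟨54, by norm_num, fun ε hε hε1 C' => ?_⟩
  have habs : 0 ≤ |C'| := abs_nonneg _
  obtain ⟨A, hA⟩ : ∃ A : ℝ, A = Real.log (56 * c2 * (|C'| + 1)) := ⟨_, rfl⟩
  have hAp : 0 < 56 * c2 * (|C'| + 1) := by positivity
  have hA1 : 1 ≤ 56 * c2 * (|C'| + 1) := by nlinarith
  have hA0 : 0 ≤ A := by rw [hA]; exact Real.log_nonneg hA1
  obtain ⟨S0, hS2, hS3, hS4, hS5⟩ : ∃ S0 : ℝ, 2 ≤ S0 ∧ Real.log (16 * c) + 40 ≤ S0 ∧
      Real.log (15 * c2) + 53 ≤ S0 ∧ 10 / ε * (A + 108) ≤ S0 :=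
    ⟨max (max 2 (Real.log (16 * c) + 40)) (max (Real.log (15 * c2) + 53) (10 / ε * (A + 108))),
      (le_max_left _ _).trans (le_max_left _ _), (le_max_right _ _).trans (le_max_left _ _),
      (le_max_left _ _).trans (le_max_right _ _), (le_max_right _ _).trans (le_max_right _ _)⟩
  refine ⟨⌈Real.exp (S0 ^ 2)⌉₊, fun N hN y hy hy10 => ?_⟩
  have hNe : Real.exp (S0 ^ 2) ≤ N := (Nat.le_ceil _).trans (by exact_mod_cast hN)
  have hN0 : (0 : ℝ) < N := (Real.exp_pos _).trans_le hNe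
  have hlogS : S0 ^ 2 ≤ Real.log N := (Real.le_log_iff_exp_le hN0).mpr hNe
  obtain ⟨s, hs⟩ : ∃ s, s = √(Real.log N) := ⟨_, rfl⟩
  have hlog0 : 0 ≤ Real.log N := (sq_nonneg S0).trans hlogS
  have hs2 : s ^ 2 = Real.log N := by rw [hs]; exact Real.sq_sqrt hlog0
  have hsS : S0 ≤ s := by
    rw [hs]
    exact Real.le_sqrt_of_sq_le hlogS
  have hNs : (N : ℝ) = Real.exp (s ^ 2) := by rw [hs2, Real.exp_log hN0]
  have hN1R : (1 : ℝ) ≤ N := by rw [hNs]; exact Real.one_le_exp (sq_nonneg _)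
  have hN1 : 1 ≤ N := by exact_mod_cast hN1R
  obtain ⟨b, hb⟩ : ∃ b : ℕ, b = ⌈s⌉₊ := ⟨_, rfl⟩
  have hs0 : 0 ≤ s := by linarith
  have hb1 : s ≤ b := by rw [hb]; exact Nat.le_ceil _
  have hb2 : (b : ℝ) ≤ s + 1 := by rw [hb]; exact (Nat.ceil_lt_add_one hs0).le
  have hb3 : 2 ≤ b := by
    have : (2 : ℝ) ≤ b := by linarith
    exact_mod_cast this
  have hp : (2 : ℝ) ^ b ≤ Real.exp (s + 1) := two_pow_le_exp hb2
  have hp0 : (0 : ℝ) < 2 ^ b := by positivity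
  rw [← hs]
  have hyN10 : y ^ 10 ≤ N := by
    calc y ^ 10 ≤ (N : ℝ) ^ ε := hy10
      _ ≤ (N : ℝ) ^ (1 : ℝ) := Real.rpow_le_rpow_of_exponent_le hN1R hε1
      _ = N := Real.rpow_one _
  have hy4 : y ^ 4 ≤ N := (pow_le_pow_right₀ hy (by norm_num)).trans hyN10
  have hy1 : y ≤ N := by
    have := pow_le_pow_right₀ hy (by norm_num : 1 ≤ 10)
    rw [pow_one] at this
    exact this.trans hyN10
  have hlogb : Real.log N ≤ (b : ℝ) ^ 2 := by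
    rw [← hs2]
    exact pow_le_pow_left₀ hs0 hb1 2
  have hNb : (N : ℝ) ^ 2 ≤ 2 ^ (4 * b ^ 2) := by
    rw [← Real.log_le_log_iff (by positivity) (by positivity), Real.log_pow, Real.log_pow]
    have e1 := Real.log_two_gt_d9
    push_cast
    have e2 : (0 : ℝ) ≤ (b : ℝ) ^ 2 := sq_nonneg _
    nlinarith
  have hE2 : 16 * c * ((2 : ℝ) ^ b) ^ 20 ≤ (N : ℝ) ^ 2 := by
    have e1 : ((2 : ℝ) ^ b) ^ 20 ≤ (Real.exp (s + 1)) ^ 20 := pow_le_pow_left₀ hp0.le hp 20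
    have e2 : 16 * c = Real.exp (Real.log (16 * c)) := (Real.exp_log (by positivity)).symm
    calc 16 * c * ((2 : ℝ) ^ b) ^ 20 ≤ 16 * c * (Real.exp (s + 1)) ^ 20 :=
          mul_le_mul_of_nonneg_left e1 (by positivity)
      _ = Real.exp (Real.log (16 * c) + 20 * (s + 1)) := by
          rw [e2, Real.log_exp, ← Real.exp_nat_mul, ← Real.exp_add]
          norm_num
      _ ≤ Real.exp (2 * s ^ 2) := by
          apply Real.exp_le_exp.mpr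
          have e3 : 0 ≤ Real.log (16 * c) := Real.log_nonneg (by linarith)
          nlinarith
      _ = (N : ℝ) ^ 2 := by
          rw [hNs, ← Real.exp_nat_mul]
          norm_num
  have hE4 : 56 * c2 * |C'| * ((2 : ℝ) ^ b) ^ 54 * (y ^ 8 * (N : ℝ) ^ (ε / 10) *
      (N : ℝ) ^ (1 - ε)) ≤ 20 * N := by
    have e1 : ((2 : ℝ) ^ b) ^ 54 ≤ (Real.exp (s + 1)) ^ 54 := pow_le_pow_left₀ hp0.le hp 54
    have hy0 : 0 < y := by linarith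
    have e2 : y ^ 8 ≤ (N : ℝ) ^ (4 * ε / 5) := by
      have g1 : (y ^ 10 : ℝ) ^ (4 / 5 : ℝ) ≤ ((N : ℝ) ^ ε) ^ (4 / 5 : ℝ) :=
        Real.rpow_le_rpow (by positivity) hy10 (by norm_num)
      rw [← Real.rpow_mul hN0.le, ← Real.rpow_natCast y 10, ← Real.rpow_mul hy0.le] at g1
      have g2 : y ^ (((10 : ℕ) : ℝ) * (4 / 5)) = y ^ 8 := by
        rw [show ((10 : ℕ) : ℝ) * (4 / 5) = ((8 : ℕ) : ℝ) by norm_num, Real.rpow_natCast]
      rw [g2] at g1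
      rw [show 4 * ε / 5 = ε * (4 / 5) by ring]
      exact g1
    have e3 : y ^ 8 * (N : ℝ) ^ (ε / 10) * (N : ℝ) ^ (1 - ε) ≤ (N : ℝ) ^ (1 - ε / 10) := by
      calc y ^ 8 * (N : ℝ) ^ (ε / 10) * (N : ℝ) ^ (1 - ε) ≤
            (N : ℝ) ^ (4 * ε / 5) * (N : ℝ) ^ (ε / 10) * (N : ℝ) ^ (1 - ε) := by
            gcongr
        _ = (N : ℝ) ^ (1 - ε / 10) := by
            rw [← Real.rpow_add hN0, ← Real.rpow_add hN0]
            congr 1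
            ring
    have e4 : 56 * c2 * |C'| * ((2 : ℝ) ^ b) ^ 54 ≤ Real.exp (A + 54 * (s + 1)) := by
      calc 56 * c2 * |C'| * ((2 : ℝ) ^ b) ^ 54 ≤
            56 * c2 * (|C'| + 1) * (Real.exp (s + 1)) ^ 54 := by
            apply mul_le_mul _ e1 (by positivity) hAp.le
            exact mul_le_mul_of_nonneg_left (by linarith) (by positivity)
        _ = Real.exp (A + 54 * (s + 1)) := by
            rw [Real.exp_add A, hA, Real.exp_log hAp, ← Real.exp_nat_mul]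
            norm_num
    have e5 : (N : ℝ) ^ (1 - ε / 10) = N * Real.exp (-(ε / 10 * s ^ 2)) := by
      rw [Real.rpow_def_of_pos hN0, ← hs2]
      nth_rewrite 1 [hNs]
      rw [← Real.exp_add]
      congr 1
      ring
    have e6 : A + 54 * (s + 1) ≤ ε / 10 * s ^ 2 := by
      have g1 : 10 / ε * (A + 108) ≤ s := hS5.trans hsS
      rw [div_mul_eq_mul_div, div_le_iff₀ hε] at g1
      have g2 : 10 * (A + 108) * s ≤ s * ε * s := mul_le_mul_of_nonneg_right g1 hs0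
      nlinarith
    calc 56 * c2 * |C'| * ((2 : ℝ) ^ b) ^ 54 * (y ^ 8 * (N : ℝ) ^ (ε / 10) * (N : ℝ) ^ (1 - ε)) ≤
          Real.exp (A + 54 * (s + 1)) * (N : ℝ) ^ (1 - ε / 10) :=
          mul_le_mul e4 e3 (by positivity) (Real.exp_pos _).le
      _ = N * Real.exp (A + 54 * (s + 1) + -(ε / 10 * s ^ 2)) := by
          rw [e5, Real.exp_add (A + 54 * (s + 1))]
          ring
      _ ≤ N * Real.exp 0 := by
          apply mul_le_mul_of_nonneg_left _ hN0.le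
          exact Real.exp_le_exp.mpr (by linarith)
      _ ≤ 20 * N := by rw [Real.exp_zero]; linarith
  have hQ : 15 * c2 * ((2 : ℝ) ^ b) ^ 53 * y ^ 10 ≤ y ^ 10 * Real.exp (54 * s) := by
    have e1 : ((2 : ℝ) ^ b) ^ 53 ≤ (Real.exp (s + 1)) ^ 53 := pow_le_pow_left₀ hp0.le hp 53
    have e2 : 15 * c2 * ((2 : ℝ) ^ b) ^ 53 ≤ Real.exp (54 * s) := by
      calc 15 * c2 * ((2 : ℝ) ^ b) ^ 53 ≤ 15 * c2 * (Real.exp (s + 1)) ^ 53 :=
            mul_le_mul_of_nonneg_left e1 (by positivity)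
        _ = Real.exp (Real.log (15 * c2) + 53 * (s + 1)) := by
            rw [Real.exp_add (Real.log (15 * c2)), Real.exp_log (by positivity), ← Real.exp_nat_mul]
            norm_num
        _ ≤ Real.exp (54 * s) := Real.exp_le_exp.mpr (by linarith)
    have e3 := mul_le_mul_of_nonneg_right e2 (by positivity : (0 : ℝ) ≤ y ^ 10)
    linarith
  obtain ⟨X, W, R, H, h⟩ := core hcd hc2d (ε := ε) (C' := C') hN1 hb3 hy hy1 hy4 hNb hlogb hE2 hE4 hQ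
  exact ⟨b, X, W, R, H, h⟩

end Pool.Agent.Helper68.QB
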